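import Pool.Agent.H76.SD.Targets

/-!
# A sparse frequency is hit outside of a family by few points (board sd_modules, module HIT)
-/

set_option autoImplicit false

namespace Pool.Agent.H51.SD

open Finset Pool.Agent.H76.SD
open Pool.Agent.H1.LP (Loc PD Viol Sys supp ip val Agree FS Typ kk S_MAIN)

theorem hit_one {p B k : ℕ} {Q : Type} [Fintype Q] [DecidableEq Q] (ga : Fin B → Q → ZMod p)
    (v : (Fin B → Q) → ℝ) (th : ℝ) (hk : 1 ≤ k) (hs : Sparse k ga) (hv : ∀ x, 0 ≤ v x)
    (hth : 0 ≤ th) (L : Finset (Fin B)) (s : Finset (Fin B → Q)) (hsL : ∀ x ∈ s, hit ga x = L)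
    (h : ∀ y : Fin B → Q, ∑ x with Agree L x y, v x ≤ th) :
    ∑ x ∈ s, v x ≤ (k : ℝ) ^ B * th := by
  classical
  let Y : Fin B → Finset Q := fun j => univ.filter (fun q => ga j q ≠ 0)
  let f : (Fin B → Q) → (Fin B → Option Q) := fun x j => if j ∈ L then some (x j) else none
  let t : Finset (Fin B → Option Q) :=
    Fintype.piFinset fun j => if j ∈ L then (Y j).map Function.Embedding.some else {none}
  have hmap : ∀ x ∈ s, f x ∈ t := by
    intro x hx
    rw [Fintype.mem_piFinset]
    intro j
    by_cases hj : j ∈ L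
    · simp only [f, hj, if_true]
      rw [Finset.mem_map]
      refine ⟨x j, ?_, rfl⟩
      have : j ∈ hit ga x := by rw [hsL x hx]; exact hj
      simpa [hit, Y] using this
    · simp [f, hj]
  have hcard : (t.card : ℝ) ≤ (k : ℝ) ^ B := by
    have h1 : t.card ≤ k ^ B := by
      rw [Fintype.card_piFinset]
      calc ∏ j : Fin B, (if j ∈ L then (Y j).map Function.Embedding.some else {none}).card
          ≤ ∏ _j : Fin B, k := by
            refine Finset.prod_le_prod' fun j _ => ?_
            by_cases hj : j ∈ L
            · rw [if_pos hj, Finset.card_map]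
              exact hs j
            · rw [if_neg hj, Finset.card_singleton]
              exact hk
        _ = k ^ B := by simp
    exact_mod_cast h1
  rw [← Finset.sum_fiberwise_of_maps_to hmap]
  calc ∑ b ∈ t, ∑ x ∈ s with f x = b, v x ≤ ∑ _b ∈ t, th := by
        refine Finset.sum_le_sum fun b _ => ?_
        rcases (s.filter fun x => f x = b).eq_empty_or_nonempty with he | ⟨y, hy⟩
        · rw [he, Finset.sum_empty]
          exact hth
        · refine le_trans ?_ (h y)
          refine Finset.sum_le_sum_of_subset_of_nonneg ?_ fun x _ _ => hv x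
          intro x hx
          rw [Finset.mem_filter] at hx hy ⊢
          refine ⟨Finset.mem_univ _, ?_⟩
          intro j hj
          have e : f x j = f y j := by rw [hx.2, hy.2]
          simpa [f, hj] using e
    _ = (t.card : ℝ) * th := by rw [Finset.sum_const, nsmul_eq_mul]
    _ ≤ (k : ℝ) ^ B * th := mul_le_mul_of_nonneg_right hcard hth

theorem hit_ : T_HIT := by
  intro p B k Q _ _ ga Ls v th hk hs hv hth h
  classical
  have hmap : ∀ x ∈ univ.filter (fun x : Fin B → Q => hit ga x ∉ Ls),
      hit ga x ∈ univ.filter (fun L : Finset (Fin B) => L ∉ Ls) := by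
    intro x hx
    simpa using hx
  rw [← Finset.sum_fiberwise_of_maps_to hmap]
  calc ∑ L ∈ univ.filter (fun L : Finset (Fin B) => L ∉ Ls),
        ∑ x ∈ (univ.filter (fun x : Fin B → Q => hit ga x ∉ Ls)) with hit ga x = L, v x
      ≤ ∑ _L ∈ univ.filter (fun L : Finset (Fin B) => L ∉ Ls), (k : ℝ) ^ B * th := by
        refine Finset.sum_le_sum fun L hL => ?_
        refine hit_one ga v th hk hs hv hth L _ (fun x hx => (Finset.mem_filter.1 hx).2) ?_
        exact h L (Finset.mem_filter.1 hL).2
    _ = ((univ.filter (fun L : Finset (Fin B) => L ∉ Ls)).card : ℝ) * ((k : ℝ) ^ B * th) := by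
        rw [Finset.sum_const, nsmul_eq_mul]
    _ ≤ 2 ^ B * ((k : ℝ) ^ B * th) := by
        refine mul_le_mul_of_nonneg_right ?_ (by positivity)
        have : (univ.filter (fun L : Finset (Fin B) => L ∉ Ls)).card ≤ 2 ^ B := by
          refine (Finset.card_filter_le _ _).trans ?_
          rw [Finset.card_univ, Fintype.card_finset, Fintype.card_fin]
        exact_mod_cast this
    _ = 2 ^ B * (k : ℝ) ^ B * th := by ring

end Pool.Agent.H51.SD
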